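import Mathlib
import Pool.Agent.Y685.SY.Stm
import Pool.Agent.Helper831.SemiLemmas

/-!
# Project SY, task TRANS: transformation rules for charts
-/

set_option maxSynthPendingDepth 3
set_option linter.unusedSectionVars false

open scoped Manifold ContDiff Topology ENNReal
open MeasureTheory Set Metric
open Pool.Agent.Y519.AS (TwoForm)
open Pool.Agent.Helper831 (coordVec mdiff_symm mdiff_chart)
open Pool.Agent.Y685.SY

namespace Pool.Agent.Y297.SY

section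

variable {E : Type} [NormedAddCommGroup E] [InnerProductSpace ℝ E] [FiniteDimensional ℝ E]
  {M : Type} [TopologicalSpace M] [ChartedSpace E M] [IsManifold 𝓘(ℝ, E) ∞ M]

theorem isOpen_trD (e e' : OpenPartialHomeomorph M E) : IsOpen (trD e e') :=
  (e.symm.trans e').open_source

theorem contDiffOn_tr {e e' : OpenPartialHomeomorph M E} (he : e ∈ atlas E M)
    (he' : e' ∈ atlas E M) : ContDiffOn ℝ ∞ (tr e e') (trD e e') := by
  have h1 : ContMDiffOn 𝓘(ℝ, E) 𝓘(ℝ, E) ∞ e.symm e.target :=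
    contMDiffOn_symm_of_mem_maximalAtlas (IsManifold.subset_maximalAtlas he)
  have h2 : ContMDiffOn 𝓘(ℝ, E) 𝓘(ℝ, E) ∞ e' e'.source :=
    contMDiffOn_of_mem_maximalAtlas (IsManifold.subset_maximalAtlas he')
  have h3 : ContMDiffOn 𝓘(ℝ, E) 𝓘(ℝ, E) ∞ (e' ∘ e.symm) (trD e e') :=
    h2.comp (h1.mono inter_subset_left) (fun y hy => hy.2)
  exact h3.contDiffOn

theorem tr_spec {e e' : OpenPartialHomeomorph M E} {y : E} (hy : y ∈ trD e e') :
    e'.symm (tr e e' y) = e.symm y ∧ tr e' e (tr e e' y) = y := by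
  have h1 : e'.symm (tr e e' y) = e.symm y := e'.left_inv hy.2
  refine ⟨h1, ?_⟩
  show e (e'.symm (tr e e' y)) = y
  rw [h1]
  exact e.right_inv hy.1

theorem mapsTo_tr (e e' : OpenPartialHomeomorph M E) :
    MapsTo (tr e e') (trD e e') (trD e' e) := by
  intro y hy
  refine ⟨e'.map_source hy.2, ?_⟩
  show e'.symm (tr e e' y) ∈ e.source
  rw [(tr_spec hy).1]
  exact e.map_target hy.1

theorem mdiff_tr {e e' : OpenPartialHomeomorph M E} (he : e ∈ atlas E M)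
    (he' : e' ∈ atlas E M) {y : E} (hy : y ∈ trD e e') :
    MDifferentiableAt 𝓘(ℝ, E) 𝓘(ℝ, E) (tr e e') y := by
  rw [mdifferentiableAt_iff_differentiableAt]
  exact ((contDiffOn_tr he he').contDiffAt ((isOpen_trD e e').mem_nhds hy)).differentiableAt
    (by simp)

/-- the vectors with coordinates `u` in the first chart -/
theorem coord_eq {e e' : OpenPartialHomeomorph M E} (he : e ∈ atlas E M)
    (he' : e' ∈ atlas E M) {y : E} (hy : y ∈ trD e e') (u : E) :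
    (mfderiv 𝓘(ℝ, E) 𝓘(ℝ, E) e.symm y u : E) =
      mfderiv 𝓘(ℝ, E) 𝓘(ℝ, E) e'.symm (tr e e' y) (fderiv ℝ (tr e e') y u) := by
  have hev : (e.symm : E → M) =ᶠ[𝓝 y] (e'.symm ∘ tr e e') := by
    filter_upwards [(isOpen_trD e e').mem_nhds hy] with z hz
    exact (tr_spec hz).1.symm
  have hs : MDifferentiableAt 𝓘(ℝ, E) 𝓘(ℝ, E) e'.symm (tr e e' y) :=
    mdiff_symm he' (e'.map_source hy.2)
  have h1 : mfderiv 𝓘(ℝ, E) 𝓘(ℝ, E) e.symm y
      = mfderiv 𝓘(ℝ, E) 𝓘(ℝ, E) (e'.symm ∘ tr e e') y := hev.mfderiv_eq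
  have h2 : mfderiv 𝓘(ℝ, E) 𝓘(ℝ, E) (e'.symm ∘ tr e e') y
      = (mfderiv 𝓘(ℝ, E) 𝓘(ℝ, E) e'.symm (tr e e' y)).comp
        (mfderiv 𝓘(ℝ, E) 𝓘(ℝ, E) (tr e e') y) := mfderiv_comp y hs (mdiff_tr he he' hy)
  have h5 := congrArg (fun L : E →L[ℝ] E => L u) (h1.trans h2)
  have h3 : mfderiv 𝓘(ℝ, E) 𝓘(ℝ, E) (tr e e') y u = fderiv ℝ (tr e e') y u := by
    rw [mfderiv_eq_fderiv]
    rfl
  refine h5.trans ?_
  exact congrArg (fun v : E =>
    (mfderiv 𝓘(ℝ, E) 𝓘(ℝ, E) e'.symm (tr e e' y) v : E)) h3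

/-- the derivatives of the charts -/
theorem chart_eq {e e' : OpenPartialHomeomorph M E} (he : e ∈ atlas E M)
    (he' : e' ∈ atlas E M) {y : E} (hy : y ∈ trD e e') (v : E) :
    fderiv ℝ (tr e e') y (mfderiv 𝓘(ℝ, E) 𝓘(ℝ, E) e (e.symm y) v : E) =
      (mfderiv 𝓘(ℝ, E) 𝓘(ℝ, E) e' (e.symm y) v : E) := by
  have hp : e.symm y ∈ e.source := e.map_target hy.1
  have hey : e (e.symm y) = y := e.right_inv hy.1
  have hev : (e' : M → E) =ᶠ[𝓝 (e.symm y)] (tr e e' ∘ e) := by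
    filter_upwards [e.open_source.mem_nhds hp] with z hz
    show e' z = e' (e.symm (e z))
    rw [e.left_inv hz]
  have hs : MDifferentiableAt 𝓘(ℝ, E) 𝓘(ℝ, E) (tr e e') (e (e.symm y)) := by
    rw [hey]
    exact mdiff_tr he he' hy
  have h1 : mfderiv 𝓘(ℝ, E) 𝓘(ℝ, E) e' (e.symm y)
      = mfderiv 𝓘(ℝ, E) 𝓘(ℝ, E) (tr e e' ∘ e) (e.symm y) := hev.mfderiv_eq
  have h2 : mfderiv 𝓘(ℝ, E) 𝓘(ℝ, E) (tr e e' ∘ e) (e.symm y)
      = (mfderiv 𝓘(ℝ, E) 𝓘(ℝ, E) (tr e e') (e (e.symm y))).comp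
        (mfderiv 𝓘(ℝ, E) 𝓘(ℝ, E) e (e.symm y)) := mfderiv_comp _ hs (mdiff_chart he hp)
  have h5 := congrArg (fun L : E →L[ℝ] E => L v) (h1.trans h2)
  have h3 : ∀ w : E, (mfderiv 𝓘(ℝ, E) 𝓘(ℝ, E) (tr e e') (e (e.symm y)) w : E)
      = fderiv ℝ (tr e e') y w := by
    intro w
    rw [mfderiv_eq_fderiv, hey]
    rfl
  refine Eq.symm (h5.trans ?_)
  exact h3 _

end

theorem form_congr {E : Type} [NormedAddCommGroup E] [InnerProductSpace ℝ E]
    {M : Type} [TopologicalSpace M] [ChartedSpace E M] (τ : TwoForm E M) {p q : M} (h : p = q)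
    (a b : TangentSpace 𝓘(ℝ, E) p) (a' b' : TangentSpace 𝓘(ℝ, E) q) (ha : (a : E) = (a' : E))
    (hb : (b : E) = (b' : E)) : τ.form p a b = τ.form q a' b' := by
  subst h
  have ha' : a = a' := ha
  have hb' : b = b' := hb
  rw [ha', hb']

theorem cov_congr {E : Type} [NormedAddCommGroup E] [InnerProductSpace ℝ E]
    {M : Type} [TopologicalSpace M] [ChartedSpace E M] (α : Cov E M) {p q : M} (h : p = q)
    (a : TangentSpace 𝓘(ℝ, E) p) (a' : TangentSpace 𝓘(ℝ, E) q) (ha : (a : E) = (a' : E)) :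
    α p a = α q a' := by
  subst h
  have ha' : a = a' := ha
  rw [ha']

theorem end_congr {E : Type} [NormedAddCommGroup E] [InnerProductSpace ℝ E]
    {M : Type} [TopologicalSpace M] [ChartedSpace E M] (A : EndField E M)
    (e : OpenPartialHomeomorph M E) {p q : M} (h : p = q)
    (a : TangentSpace 𝓘(ℝ, E) p) (a' : TangentSpace 𝓘(ℝ, E) q) (ha : (a : E) = (a' : E)) :
    (mfderiv 𝓘(ℝ, E) 𝓘(ℝ, E) e p (A p a) : E) = mfderiv 𝓘(ℝ, E) 𝓘(ℝ, E) e q (A q a') := by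
  subst h
  have ha' : a = a' := ha
  rw [ha']

variable (E : Type) [NormedAddCommGroup E] [InnerProductSpace ℝ E] [FiniteDimensional ℝ E]
  (M : Type) [TopologicalSpace M] [ChartedSpace E M] [IsManifold 𝓘(ℝ, E) ∞ M]

theorem t_TRANS : S_TRANS E M := by
  intro e he e' he'
  refine ⟨isOpen_trD e e', contDiffOn_tr he he', mapsTo_tr e e', fun y hy => tr_spec hy, ?_, ?_,
    ?_⟩
  · intro τ y hy u w
    exact form_congr τ (tr_spec hy).1.symm _ _ _ _ (coord_eq he he' hy u) (coord_eq he he' hy w)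
  · intro α y hy u
    exact cov_congr α (tr_spec hy).1.symm _ _ (coord_eq he he' hy u)
  · intro A y hy u
    have h1 : (mat A e y u : E) = mfderiv 𝓘(ℝ, E) 𝓘(ℝ, E) e (e.symm y)
        (A (e.symm y) (mfderiv 𝓘(ℝ, E) 𝓘(ℝ, E) e.symm y u)) := rfl
    have h2 : (mat A e' (tr e e' y) (fderiv ℝ (tr e e') y u) : E) =
        mfderiv 𝓘(ℝ, E) 𝓘(ℝ, E) e' (e'.symm (tr e e' y))
        (A (e'.symm (tr e e' y)) (mfderiv 𝓘(ℝ, E) 𝓘(ℝ, E) e'.symm (tr e e' y)
          (fderiv ℝ (tr e e') y u))) := rfl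
    rw [h1, h2]
    refine (chart_eq he he' hy _).trans ?_
    exact end_congr A e' (tr_spec hy).1.symm _ _ (coord_eq he he' hy u)

end Pool.Agent.Y297.SY
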